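import Mathlib

/-!
# A rack bialgebra which is not a Yetter-Drinfel'd rack

Over every field we construct a rack bialgebra of dimension nine which cannot be expressed as a
Yetter-Drinfel'd rack over any bialgebra.
-/

namespace Pool.Agent.Results.MP_abbe90_al.NotYetterDrinfeldRack

open TensorProduct

universe u v w

/-- A rack bialgebra: a coalgebra `C` with a group-like element `one` and a bilinear operation
`R x y = x ◁ y` which is a coalgebra morphism `C ⊗ C → C`, with
`(x ◁ y) ◁ z = (x ◁ z₁) ◁ (y ◁ z₂)`, `x ◁ 1 = x` and `1 ◁ x = ε(x) 1`. -/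
structure IsRackBialgebra (k : Type u) [Field k] (C : Type v) [AddCommGroup C] [Module k C]
    [Coalgebra k C] (one : C) (R : C →ₗ[k] C →ₗ[k] C) : Prop where
  comul_one : Coalgebra.comul (R := k) one = one ⊗ₜ[k] one
  counit_one : Coalgebra.counit (R := k) one = 1
  comul_rack : ∀ x y : C, Coalgebra.comul (R := k) (R x y) =
    TensorProduct.map (TensorProduct.lift R) (TensorProduct.lift R)
      (TensorProduct.tensorTensorTensorComm k C C C C
        (Coalgebra.comul (R := k) x ⊗ₜ[k] Coalgebra.comul (R := k) y))
  counit_rack : ∀ x y : C, Coalgebra.counit (R := k) (R x y) =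
    Coalgebra.counit (R := k) x * Coalgebra.counit (R := k) y
  self_distrib : ∀ x y z : C, R (R x y) z =
    TensorProduct.lift R (TensorProduct.map (R x) (R y) (Coalgebra.comul (R := k) z))
  rack_one : ∀ x : C, R x one = x
  one_rack : ∀ x : C, R one x = Coalgebra.counit (R := k) x • one

/-- The right `H`-module structure `act` on `C` and the map `q` make the rack bialgebra `C` a
Yetter-Drinfel'd rack over the bialgebra `H`: `C` is a right `H`-module coalgebra, `q` is a
morphism of counital coalgebras with `q(1) = 1`, `a ◁ b = a · q(b)` and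
`h₁ q(a · h₂) = q(a) h`. -/
structure IsYetterDrinfeldRack (k : Type u) [Field k] (C : Type v) [AddCommGroup C] [Module k C]
    [Coalgebra k C] (one : C) (R : C →ₗ[k] C →ₗ[k] C) (H : Type w) [Ring H] [Bialgebra k H]
    (act : C →ₗ[k] H →ₗ[k] C) (q : C →ₗ[k] H) : Prop where
  act_one : ∀ x : C, act x 1 = x
  act_mul : ∀ (x : C) (g h : H), act x (g * h) = act (act x g) h
  comul_act : ∀ (x : C) (h : H), Coalgebra.comul (R := k) (act x h) =
    TensorProduct.map (TensorProduct.lift act) (TensorProduct.lift act)
      (TensorProduct.tensorTensorTensorComm k C C H H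
        (Coalgebra.comul (R := k) x ⊗ₜ[k] Coalgebra.comul (R := k) h))
  counit_act : ∀ (x : C) (h : H), Coalgebra.counit (R := k) (act x h) =
    Coalgebra.counit (R := k) x * Coalgebra.counit (R := k) h
  comul_q : ∀ x : C, Coalgebra.comul (R := k) (q x) =
    TensorProduct.map q q (Coalgebra.comul (R := k) x)
  counit_q : ∀ x : C, Coalgebra.counit (R := k) (q x) = Coalgebra.counit (R := k) x
  q_one : q one = 1
  rack_eq : ∀ a b : C, R a b = act a (q b)
  yetter_drinfeld : ∀ (a : C) (h : H),
    LinearMap.mul' k H (TensorProduct.map LinearMap.id (q ∘ₗ act a) (Coalgebra.comul (R := k) h)) =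
      q a * h

/-! ### The example -/

/-- The basis: the group-like element, the primitive elements `p, z, e, f`, and the elements
`pe, pf, ze, zf`. -/
inductive B : Type
  | one | p | z | e | f | pe | pf | ze | zf
deriving DecidableEq

instance : Fintype B :=
  ⟨{.one, .p, .z, .e, .f, .pe, .pf, .ze, .zf}, by intro x; cases x <;> simp⟩

variable (k : Type u) [Field k]

/-- The underlying space of the example. -/
def C : Type u := B →₀ k

noncomputable instance : AddCommGroup (C k) := inferInstanceAs (AddCommGroup (B →₀ k))
noncomputable instance : Module k (C k) := inferInstanceAs (Module k (B →₀ k))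

variable {k}

/-- The basis vectors. -/
noncomputable def E (b : B) : C k := (Finsupp.single b (1 : k) : B →₀ k)

variable (k) in
/-- The basis. -/
noncomputable def bas : Module.Basis B k (C k) := Finsupp.basisSingleOne

lemma bas_apply (b : B) : bas k b = E b :=
  congrFun (Finsupp.coe_basisSingleOne (R := k) (ι := B)) b

/-- The coproduct on the basis. -/
noncomputable def co : B → C k ⊗[k] C k
  | .one => E .one ⊗ₜ E .one
  | .p => E .one ⊗ₜ E .p + E .p ⊗ₜ E .one
  | .z => E .one ⊗ₜ E .z + E .z ⊗ₜ E .one
  | .e => E .one ⊗ₜ E .e + E .e ⊗ₜ E .one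
  | .f => E .one ⊗ₜ E .f + E .f ⊗ₜ E .one
  | .pe => E .one ⊗ₜ E .pe + E .pe ⊗ₜ E .one + E .p ⊗ₜ E .e
  | .pf => E .one ⊗ₜ E .pf + E .pf ⊗ₜ E .one + E .p ⊗ₜ E .f
  | .ze => E .one ⊗ₜ E .ze + E .ze ⊗ₜ E .one + E .z ⊗ₜ E .e
  | .zf => E .one ⊗ₜ E .zf + E .zf ⊗ₜ E .one + E .z ⊗ₜ E .f

/-- The counit on the basis. -/
def cu : B → k
  | .one => 1
  | _ => 0

/-- The rack operation on the basis. -/
noncomputable def tbl : B → B → C k
  | x, .one => E x
  | .p, .p => E .z
  | .f, .e => E .f
  | .e, .f => -E .f
  | .pe, .p => E .ze
  | .pf, .p => E .zf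
  | .pe, .f => -E .pf
  | .pf, .e => E .pf
  | .ze, .f => -E .zf
  | .zf, .e => E .zf
  | .pe, .pf => -E .zf
  | .pf, .pe => E .zf
  | _, _ => 0

variable (k) in
/-- The coproduct. -/
noncomputable def comulC : C k →ₗ[k] C k ⊗[k] C k := (bas k).constr k co

variable (k) in
/-- The counit. -/
noncomputable def counitC : C k →ₗ[k] k := (bas k).constr k cu

variable (k) in
/-- The rack operation. -/
noncomputable def rackC : C k →ₗ[k] C k →ₗ[k] C k :=
  (bas k).constr k fun x => (bas k).constr k fun y => tbl x y

@[simp] lemma comulC_E (b : B) : comulC k (E b) = co b := by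
  rw [← bas_apply, comulC, Module.Basis.constr_basis]

@[simp] lemma counitC_E (b : B) : counitC k (E b) = cu b := by
  rw [← bas_apply, counitC, Module.Basis.constr_basis]

@[simp] lemma rackC_E (x y : B) : rackC k (E x) (E y) = tbl x y := by
  rw [← bas_apply, ← bas_apply, rackC, Module.Basis.constr_basis, Module.Basis.constr_basis]

noncomputable instance : Coalgebra k (C k) where
  comul := comulC k
  counit := counitC k
  coassoc := by
    refine (bas k).ext fun b => ?_
    rw [bas_apply]
    cases b <;> simp [co, tmul_add, add_tmul] <;> abel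
  rTensor_counit_comp_comul := by
    refine (bas k).ext fun b => ?_
    rw [bas_apply]
    cases b <;> simp [co, cu]
  lTensor_counit_comp_comul := by
    refine (bas k).ext fun b => ?_
    rw [bas_apply]
    cases b <;> simp [co, cu]

lemma comul_E (b : B) : Coalgebra.comul (R := k) (E b : C k) = co b := comulC_E b

lemma counit_E (b : B) : Coalgebra.counit (R := k) (E b : C k) = cu b := counitC_E b

lemma ind {P : C k → Prop} (h : ∀ b, P (E b)) (hadd : ∀ x y, P x → P y → P (x + y))
    (hsmul : ∀ (c : k) x, P x → P (c • x)) (x : C k) : P x := by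
  have hx : x ∈ Submodule.span k (Set.range (bas k)) := by rw [(bas k).span_eq]; trivial
  induction hx using Submodule.span_induction with
  | mem y hy => obtain ⟨b, rfl⟩ := hy; rw [bas_apply]; exact h b
  | zero => simpa using hsmul 0 _ (h .one)
  | add y z _ _ hy hz => exact hadd _ _ hy hz
  | smul c y _ hy => exact hsmul c _ hy

lemma self_distrib_E (x y t : B) : rackC k (rackC k (E x) (E y)) (E t) =
    TensorProduct.lift (rackC k) (TensorProduct.map (rackC k (E x)) (rackC k (E y)) (co t)) := by
  cases t <;> simp only [co, map_add, TensorProduct.map_tmul, TensorProduct.lift.tmul, rackC_E] <;>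
  cases x <;> cases y <;> simp [tbl]

/-- The example is a rack bialgebra. -/
lemma isRackBialgebra : IsRackBialgebra k (C k) (E .one) (rackC k) where
  comul_one := comul_E _
  counit_one := counit_E _
  comul_rack := by
    have h : (Coalgebra.comul (R := k) (A := C k)) ∘ₗ TensorProduct.lift (rackC k) =
        (TensorProduct.map (TensorProduct.lift (rackC k)) (TensorProduct.lift (rackC k)) ∘ₗ
          (TensorProduct.tensorTensorTensorComm k (C k) (C k) (C k) (C k)).toLinearMap) ∘ₗ
            TensorProduct.map (Coalgebra.comul (R := k)) (Coalgebra.comul (R := k)) := by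
      refine ((bas k).tensorProduct (bas k)).ext fun b => ?_
      obtain ⟨x, y⟩ := b
      rw [Module.Basis.tensorProduct_apply, bas_apply, bas_apply]
      simp only [LinearMap.comp_apply, TensorProduct.lift.tmul, rackC_E, TensorProduct.map_tmul,
        comul_E, LinearEquiv.coe_coe]
      cases x <;> cases y <;>
      simp [co, tbl, comul_E, tmul_add, add_tmul, tmul_neg, neg_tmul] <;> abel
    intro x y
    have := LinearMap.congr_fun h (x ⊗ₜ y)
    simpa using this
  counit_rack := by
    have h : (Coalgebra.counit (R := k) (A := C k)) ∘ₗ TensorProduct.lift (rackC k) =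
        LinearMap.mul' k k ∘ₗ
          TensorProduct.map (Coalgebra.counit (R := k)) (Coalgebra.counit (R := k)) := by
      refine ((bas k).tensorProduct (bas k)).ext fun b => ?_
      obtain ⟨x, y⟩ := b
      rw [Module.Basis.tensorProduct_apply, bas_apply, bas_apply]
      simp only [LinearMap.comp_apply, TensorProduct.lift.tmul, rackC_E, TensorProduct.map_tmul,
        counit_E, LinearMap.mul'_apply]
      cases x <;> cases y <;> simp [tbl, counit_E, cu]
    intro x y
    have := LinearMap.congr_fun h (x ⊗ₜ y)
    simpa using this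
  self_distrib x y z := by
    refine ind (P := fun z => ∀ x y, rackC k (rackC k x y) z = TensorProduct.lift (rackC k)
      (TensorProduct.map (rackC k x) (rackC k y) (Coalgebra.comul (R := k) z)))
      (fun c => ?_) (fun z z' hz hz' x y => ?_) (fun c z hz x y => ?_) z x y
    · refine ind (fun a => ?_) (fun x x' hx hx' y => ?_) (fun c x hx y => ?_)
      · refine ind (fun b => ?_) (fun y y' hy hy' => ?_) (fun c y hy => ?_)
        · rw [comul_E]; exact self_distrib_E a b c
        · rw [map_add, map_add, LinearMap.add_apply, hy, hy', map_add,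
            TensorProduct.map_add_right, LinearMap.add_apply, map_add]
        · rw [map_smul, map_smul, LinearMap.smul_apply, hy, map_smul,
            TensorProduct.map_smul_right, LinearMap.smul_apply, map_smul]
      · rw [map_add, LinearMap.add_apply, map_add, LinearMap.add_apply, hx, hx',
          TensorProduct.map_add_left, LinearMap.add_apply, map_add]
      · rw [map_smul, LinearMap.smul_apply, map_smul, LinearMap.smul_apply, hx,
          TensorProduct.map_smul_left, LinearMap.smul_apply, map_smul]
    · rw [map_add, hz, hz', map_add, map_add, map_add]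
    · rw [map_smul, hz, map_smul, map_smul, map_smul]
  rack_one x := by
    have h : (rackC k).flip (E .one) = LinearMap.id := by
      refine (bas k).ext fun b => ?_
      rw [bas_apply]
      cases b <;> simp [tbl]
    exact LinearMap.congr_fun h x
  one_rack x := by
    have h : rackC k (E .one) =
        (Coalgebra.counit (R := k) (A := C k)).smulRight (E .one : C k) := by
      refine (bas k).ext fun b => ?_
      rw [bas_apply]
      cases b <;> simp [tbl, counit_E, cu]
    simpa using LinearMap.congr_fun h x

/-- The example is not a Yetter-Drinfel'd rack over any bialgebra. -/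
lemma not_isYetterDrinfeldRack (H : Type w) [Ring H] [Bialgebra k H]
    (act : C k →ₗ[k] H →ₗ[k] C k) (q : C k →ₗ[k] H)
    (h : IsYetterDrinfeldRack k (C k) (E .one) (rackC k) H act q) : False := by
  -- values of `act` on the relevant elements
  have hact : ∀ a b : B, act (E a) (q (E b)) = tbl a b := fun a b => by
    rw [← h.rack_eq, rackC_E]
  -- coproducts of the images
  have hcomul : ∀ b : B, Coalgebra.comul (R := k) (q (E b)) = TensorProduct.map q q (co b) :=
    fun b => by rw [h.comul_q, comul_E]
  have hp : Coalgebra.comul (R := k) (q (E .p)) = 1 ⊗ₜ q (E .p) + q (E .p) ⊗ₜ 1 := by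
    rw [hcomul]; simp [co, h.q_one]
  have he : Coalgebra.comul (R := k) (q (E .e)) = 1 ⊗ₜ q (E .e) + q (E .e) ⊗ₜ 1 := by
    rw [hcomul]; simp [co, h.q_one]
  have hf : Coalgebra.comul (R := k) (q (E .f)) = 1 ⊗ₜ q (E .f) + q (E .f) ⊗ₜ 1 := by
    rw [hcomul]; simp [co, h.q_one]
  have hm : Coalgebra.comul (R := k) (q (E .pe)) =
      1 ⊗ₜ q (E .pe) + q (E .pe) ⊗ₜ 1 + q (E .p) ⊗ₜ q (E .e) := by
    rw [hcomul]; simp [co, h.q_one]
  -- the Yetter-Drinfel'd relations for `a = f` and `h = q p, q e, q pe`
  have r1 : q (E .p) * q (E .f) = q (E .f) * q (E .p) := by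
    have := h.yetter_drinfeld (E .f) (q (E .p))
    rw [hp] at this
    simpa [hact, h.act_one, tbl] using this
  have r2 : q (E .f) + q (E .e) * q (E .f) = q (E .f) * q (E .e) := by
    have := h.yetter_drinfeld (E .f) (q (E .e))
    rw [he] at this
    simpa [hact, h.act_one, tbl] using this
  have r3 : q (E .pe) * q (E .f) + q (E .p) * q (E .f) = q (E .f) * q (E .pe) := by
    have := h.yetter_drinfeld (E .f) (q (E .pe))
    rw [hm] at this
    simpa [hact, h.act_one, tbl] using this
  -- apply the coproduct to the last relation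
  have r4 := congrArg (Coalgebra.comul (R := k)) r3
  rw [map_add, Bialgebra.comul_mul, Bialgebra.comul_mul, Bialgebra.comul_mul, hm, hf, hp] at r4
  simp only [mul_add, add_mul, Algebra.TensorProduct.tmul_mul_tmul, one_mul, mul_one] at r4
  rw [← r3, ← r2, ← r1] at r4
  simp only [tmul_add, add_tmul] at r4
  have r5 : q (E .f) ⊗ₜ[k] q (E .p) = 0 := by
    rw [← sub_eq_zero] at r4
    rw [← r4]; abel
  -- act on `e ⊗ p`
  have r6 := congrArg (TensorProduct.map (act (E .e)) (act (E .p))) r5
  rw [TensorProduct.map_tmul, hact, hact, map_zero] at r6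
  have r7 : (-(E .f : C k)) ⊗ₜ[k] (E .z : C k) = 0 := r6
  rw [neg_tmul, neg_eq_zero] at r7
  have r8 := congrArg (fun t => ((bas k).tensorProduct (bas k)).repr t (B.f, B.z)) r7
  rw [← bas_apply, ← bas_apply, ← Module.Basis.tensorProduct_apply] at r8
  simp at r8

/-- Over every field `k` there are a coalgebra `C`, a group-like element and a rack operation
making `C` a rack bialgebra which cannot be expressed as a Yetter-Drinfel'd rack over any
bialgebra `H`. -/
theorem result (k : Type u) [Field k] :
    ∃ (C : Type u) (_ : AddCommGroup C) (_ : Module k C) (_ : Coalgebra k C) (one : C)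
      (R : C →ₗ[k] C →ₗ[k] C), IsRackBialgebra k C one R ∧ Module.finrank k C = 9 ∧
      ∀ (H : Type w) (_ : Ring H) (_ : Bialgebra k H) (act : C →ₗ[k] H →ₗ[k] C)
        (q : C →ₗ[k] H), ¬ IsYetterDrinfeldRack k C one R H act q := by
  refine ⟨C k, inferInstance, inferInstance, inferInstance, E .one, rackC k, isRackBialgebra, ?_,
    fun H _ _ act q h => not_isYetterDrinfeldRack H act q h⟩
  rw [Module.finrank_eq_card_basis (bas k)]
  rfl

end Pool.Agent.Results.MP_abbe90_al.NotYetterDrinfeldRack
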